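import Pool.Agent.Y738.PE.Stm

set_option autoImplicit false

/-! # The contraction of the tensor is the superposition of all tilings -/

open scoped BigOperators ComplexConjugate Classical

noncomputable section

namespace Pool.Agent.Y978.PE

open Pool.Agent.Y738.PE Finset

/-! ## arithmetic of the positions -/

lemma blk_form {m M i j : ℕ} (hm : 0 < m) (h : Blk m M i j) : ∃ k k' : ℕ,
    i = m * k + (i - 1) % m + 1 ∧ j = m * k' + (j - 1) % m + 1 ∧ k < M ∧ k' < M ∧ k ≠ k' := by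
  obtain ⟨h1, h2, h3, h4, h5⟩ := h
  refine ⟨(i - 1) / m, (j - 1) / m, ?_, ?_, ?_, ?_, h5⟩
  · have := Nat.div_add_mod (i - 1) m
    omega
  · have := Nat.div_add_mod (j - 1) m
    omega
  · rw [Nat.div_lt_iff_lt_mul hm, mul_comm]
    omega
  · rw [Nat.div_lt_iff_lt_mul hm, mul_comm]
    omega

lemma le_mk {m M k a : ℕ} (hk : k < M) (ha : a < m) : m * k + a + 1 ≤ m * M := by
  calc m * k + a + 1 ≤ m * k + m := by omega
    _ = m * (k + 1) := by ring
    _ ≤ m * M := Nat.mul_le_mul_left m hk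

lemma div_mk {m k a : ℕ} (ha : a < m) : (m * k + a + 1 - 1) / m = k := by
  rw [Nat.add_sub_cancel, Nat.mul_add_div (by omega), Nat.div_eq_of_lt ha, add_zero]

lemma mod_mk {m k a : ℕ} (ha : a < m) : (m * k + a + 1 - 1) % m = a := by
  rw [Nat.add_sub_cancel, Nat.mul_add_mod, Nat.mod_eq_of_lt ha]

lemma blk_mk {m M k k' a b : ℕ} (hk : k < M) (hk' : k' < M) (hkk : k ≠ k') (ha : a < m)
    (hb : b < m) : Blk m M (m * k + a + 1) (m * k' + b + 1) := by
  refine ⟨by omega, le_mk hk ha, by omega, le_mk hk' hb, ?_⟩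
  rw [div_mk ha, div_mk hb]
  exact hkk

/-! ## cyclic tilings -/

lemma const_zmod {L : ℕ} [NeZero L] {A : Type*} (f : ZMod L → A) (h : ∀ b, f (b - 1) = f b)
    (b : ZMod L) : f b = f 0 := by
  have h1 : ∀ n : ℕ, f (n : ZMod L) = f 0 := by
    intro n
    induction n with
    | zero => simp
    | succ n ih =>
      rw [← h]
      push_cast
      rw [add_sub_cancel_right]
      exact ih
  have h2 := h1 b.val
  rwa [ZMod.natCast_zmod_val] at h2

lemma back {L N : ℕ} {α : ZMod L → Lab N} (h : Cyc α) (u : ZMod L) (t : ℕ)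
    (ht : t ≤ ((α u).2 : ℕ)) : ((α (u - (t : ZMod L))).2 : ℕ) = ((α u).2 : ℕ) - t := by
  induction t with
  | zero => simp
  | succ t ih =>
    have ih' := ih (by omega)
    have h1 := (h (u - (t : ZMod L))).2
    have e : u - ((t + 1 : ℕ) : ZMod L) = u - (t : ZMod L) - 1 := by push_cast; ring
    rw [e]
    rcases h1 with h1 | h1
    · omega
    · omega

lemma forw {L N : ℕ} {α : ZMod L → Lab N} (h : Cyc α) (u : ZMod L) (t : ℕ)
    (ht : ((α u).2 : ℕ) + t < N) : ((α (u + (t : ZMod L))).2 : ℕ) = ((α u).2 : ℕ) + t := by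
  induction t with
  | zero => simp
  | succ t ih =>
    have ih' := ih (by omega)
    have h1 := (h (u + (t : ZMod L) + 1)).2
    rw [add_sub_cancel_right] at h1
    have e : u + ((t + 1 : ℕ) : ZMod L) = u + (t : ZMod L) + 1 := by push_cast; ring
    rw [e]
    rcases h1 with h1 | h1
    · omega
    · omega

/-- the labels in a sub-interval -/
lemma lab_in {L m M : ℕ} {α : ZMod L → Lab (m * M + 1)} (h : Cyc α) (u : ZMod L) {k p a : ℕ}
    (hi : ((α u).2 : ℕ) = m * k + p + 1) (hk : k < M) (ha : a < m) :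
    ((α (u - (p : ZMod L) + (a : ZMod L))).2 : ℕ) = m * k + a + 1 := by
  have h1 := back h u p (by omega)
  have h2 : ((α (u - (p : ZMod L))).2 : ℕ) = m * k + 1 := by omega
  have h3 := le_mk hk ha
  have h4 := forw h (u - (p : ZMod L)) a (by omega)
  omega

/-! ## the two sides -/

variable {d m M L : ℕ} [NeZero L]

/-- the amplitude -/
def amp (Φ : BConf d m → ℂ) (c : XT d m M) : ℂ :=
  if Blk m M c.1.2 c.2.1.2 ∧ ((c.1.2 : ℕ) - 1) % m = 0 ∧ ((c.2.1.2 : ℕ) - 1) % m = 0 then Φ c.2.2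
  else 1

/-- the conditions at all sites -/
def CA (m M : ℕ) (s : Conf d L) (x : Site L → XT d m M) : Prop :=
  ∀ v : Site L, Cond m M (s v) (x (v.1 - 1, v.2)) (x v) (x (v.1, v.2 - 1))

lemma peps_eq (Φ : BConf d m → ℂ) (s : Conf d L) :
    pepsX (tens m M Φ) L s =
      ∑ x ∈ (Finset.univ : Finset (Site L → XT d m M)).filter (CA m M s), ∏ v, amp Φ (x v) := by
  unfold pepsX
  rw [Finset.sum_filter]
  refine Finset.sum_congr rfl fun x _ => ?_
  rw [Finset.sum_eq_single x]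
  · by_cases h : CA m M s x
    · rw [if_pos h]
      refine prod_congr rfl fun v _ => ?_
      unfold tens
      rw [if_pos ⟨rfl, h v⟩]
      rfl
    · rw [if_neg h]
      unfold CA at h
      push Not at h
      obtain ⟨v, hv⟩ := h
      refine prod_eq_zero (mem_univ v) ?_
      unfold tens
      rw [if_neg (fun h => hv h.2)]
  · intro y _ hy
    obtain ⟨v, hv⟩ := Function.ne_iff.1 hy
    refine prod_eq_zero (mem_univ v) ?_
    unfold tens
    rw [if_neg (fun h => hv h.1)]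
  · intro h
    exact absurd (mem_univ _) h

/-- the fixed sites have the right values -/
def FX (m M : ℕ) (s : Conf d L) (θ : Til (m * M + 1) L) : Prop :=
  ∀ v : Site L, ¬ Blk m M (θ.1 v.1).2 (θ.2 v.2).2 →
    ((((θ.1 v.1).2 : ℕ) = 0 ∨ ((θ.2 v.2).2 : ℕ) = 0) → (s v : ℕ) = 1) ∧
    (¬ (((θ.1 v.1).2 : ℕ) = 0 ∨ ((θ.2 v.2).2 : ℕ) = 0) → (s v : ℕ) = 0)

lemma glob_zero (Φ : BConf d m → ℂ) (s : Conf d L) (θ : Til (m * M + 1) L)
    (h : ¬ FX m M s θ) : glob m M Φ θ s = 0 := by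
  unfold FX at h
  push Not at h
  obtain ⟨v, hb, hv⟩ := h
  unfold glob
  refine prod_eq_zero (mem_univ v) ?_
  unfold fac
  by_cases h1 : ((θ.1 v.1).2 : ℕ) = 0 ∨ ((θ.2 v.2).2 : ℕ) = 0
  · rw [if_pos h1, if_neg]
    intro h2
    obtain ⟨h3, _⟩ := hv (fun _ => h2)
    omega
  · rw [if_neg h1, if_neg hb, if_neg]
    intro h2
    obtain ⟨_, h3⟩ := hv (fun h3 => absurd h3 h1)
    omega

lemma tot_eq (Φ : BConf d m → ℂ) (s : Conf d L) :
    tot m M Φ L s =
      ∑ θ ∈ (Finset.univ : Finset (Til (m * M + 1) L)).filter (fun θ => Valid θ ∧ FX m M s θ),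
        glob m M Φ θ s := by
  unfold tot
  symm
  refine Finset.sum_subset ?_ ?_
  · intro θ hθ
    rw [mem_filter] at hθ ⊢
    exact ⟨hθ.1, hθ.2.1⟩
  · intro θ h1 h2
    rw [mem_filter] at h1 h2
    exact glob_zero Φ s θ fun h3 => h2 ⟨h1.1, h1.2, h3⟩

/-- the block content at a site -/
def Xc (m M : ℕ) (s : Conf d L) (i j : ℕ) (v : Site L) : BConf d m :=
  if Blk m M i j then
    box m s (v.1 - (((i - 1) % m : ℕ) : ZMod L), v.2 - (((j - 1) % m : ℕ) : ZMod L))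
  else fun _ => s v

/-- the state of a tiling -/
def Xt (m M : ℕ) (s : Conf d L) (θ : Til (m * M + 1) L) : Site L → XT d m M :=
  fun v => (θ.1 v.1, θ.2 v.2, Xc m M s (θ.1 v.1).2 (θ.2 v.2).2 v)

lemma glob_amp (Φ : BConf d m → ℂ) (s : Conf d L) (θ : Til (m * M + 1) L) (h : FX m M s θ) :
    glob m M Φ θ s = ∏ v, amp Φ (Xt m M s θ v) := by
  unfold glob
  refine prod_congr rfl fun v _ => ?_
  have hv := h v
  unfold fac amp Xt
  simp only
  obtain ⟨i, hi⟩ : ∃ i : ℕ, i = ((θ.1 v.1).2 : ℕ) := ⟨_, rfl⟩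
  obtain ⟨j, hj⟩ : ∃ j : ℕ, j = ((θ.2 v.2).2 : ℕ) := ⟨_, rfl⟩
  rw [← hi, ← hj] at hv ⊢
  by_cases h1 : i = 0 ∨ j = 0
  · have h2 : ¬ Blk m M i j := by
      rintro ⟨h3, _, h4, _⟩
      omega
    rw [if_pos h1, if_pos ((hv h2).1 h1), if_neg (fun h3 => h2 h3.1)]
  · rw [if_neg h1]
    by_cases h2 : Blk m M i j
    · rw [if_pos h2]
      by_cases h3 : (i - 1) % m = 0 ∧ (j - 1) % m = 0
      · rw [if_pos h3, if_pos ⟨h2, h3⟩]
        unfold Xc
        rw [if_pos h2, h3.1, h3.2]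
        simp
      · rw [if_neg h3, if_neg (fun h4 => h3 h4.2)]
    · rw [if_neg h2, if_pos ((hv h2).2 h1), if_neg (fun h3 => h2 h3.1)]

/-- moving inside a sub-block: the column to the left -/
lemma Xc_left {s : Conf d L} {i i' j : ℕ} (hm : 0 < m) (h : Blk m M i j) (h1 : (i - 1) % m ≠ 0)
    (h2 : i = i' + 1) (v : Site L) :
    Xc m M s i' j (v.1 - 1, v.2) = Xc m M s i j v := by
  obtain ⟨k, k', e1, e2, hk, hk', hkk⟩ := blk_form hm h
  obtain ⟨p, hp⟩ : ∃ p, p = (i - 1) % m := ⟨_, rfl⟩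
  obtain ⟨q, hq⟩ : ∃ q, q = (j - 1) % m := ⟨_, rfl⟩
  have hpm : p < m := by rw [hp]; exact Nat.mod_lt _ hm
  have hqm : q < m := by rw [hq]; exact Nat.mod_lt _ hm
  rw [← hp] at e1 h1
  rw [← hq] at e2
  obtain ⟨p', hp'⟩ : ∃ p', p = p' + 1 := ⟨p - 1, by omega⟩
  have e3 : i' = m * k + p' + 1 := by omega
  have hb : Blk m M i' j := by
    rw [e3, e2]
    exact blk_mk hk hk' hkk (by omega) hqm
  have hmod : (i' - 1) % m = p' := by
    rw [e3]
    exact mod_mk (by omega)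
  unfold Xc
  rw [if_pos h, if_pos hb, hmod, ← hp, hp']
  congr 2
  push_cast
  ring

/-- moving inside a sub-block: the row below -/
lemma Xc_down {s : Conf d L} {i j j' : ℕ} (hm : 0 < m) (h : Blk m M i j) (h1 : (j - 1) % m ≠ 0)
    (h2 : j = j' + 1) (v : Site L) :
    Xc m M s i j' (v.1, v.2 - 1) = Xc m M s i j v := by
  obtain ⟨k, k', e1, e2, hk, hk', hkk⟩ := blk_form hm h
  obtain ⟨p, hp⟩ : ∃ p, p = (i - 1) % m := ⟨_, rfl⟩
  obtain ⟨q, hq⟩ : ∃ q, q = (j - 1) % m := ⟨_, rfl⟩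
  have hpm : p < m := by rw [hp]; exact Nat.mod_lt _ hm
  have hqm : q < m := by rw [hq]; exact Nat.mod_lt _ hm
  rw [← hp] at e1
  rw [← hq] at e2 h1
  obtain ⟨q', hq'⟩ : ∃ q', q = q' + 1 := ⟨q - 1, by omega⟩
  have e3 : j' = m * k' + q' + 1 := by omega
  have hb : Blk m M i j' := by
    rw [e3, e1]
    exact blk_mk hk hk' hkk hpm (by omega)
  have hmod : (j' - 1) % m = q' := by
    rw [e3]
    exact mod_mk (by omega)
  unfold Xc
  rw [if_pos h, if_pos hb, hmod, ← hq, hq']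
  congr 2
  push_cast
  ring

/-- the state of a tiling satisfies the conditions -/
lemma CA_Xt (hm : 0 < m) (s : Conf d L) (θ : Til (m * M + 1) L) (h1 : Valid θ)
    (h2 : FX m M s θ) : CA m M s (Xt m M s θ) := by
  intro v
  obtain ⟨ha, hb⟩ := h1
  have ha1 := ha v.1
  have hb1 := hb v.2
  unfold Xt Cond
  simp only
  refine ⟨ha1.1, hb1.1, ha1.2, trivial, hb1.2, trivial, ?_, ?_, ?_, ?_⟩
  · intro h3 h4
    rcases ha1.2 with h5 | h5
    · exact Xc_left hm h3 h4 h5.2 v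
    · have := h3.1
      omega
  · intro h3 h4
    rcases hb1.2 with h5 | h5
    · exact Xc_down hm h3 h4 h5.2 v
    · have := h3.2.2.1
      omega
  · intro h3 p hp1 hp2
    unfold Xc
    rw [if_pos h3]
    unfold Pool.Agent.Y738.PE.box
    rw [← hp1, ← hp2]
    simp
  · intro h3
    refine ⟨?_, h2 v h3⟩
    unfold Xc
    rw [if_neg h3]

/-- the tiling of a state -/
def th (x : Site L → XT d m M) : Til (m * M + 1) L := (fun a => (x (a, 0)).1, fun b => (x (0, b)).2.1)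

lemma th1 {s : Conf d L} {x : Site L → XT d m M} (h : CA m M s x) (v : Site L) :
    (x v).1 = (th x).1 v.1 := by
  have h1 := const_zmod (fun b => (x (v.1, b)).1) (fun b => (h (v.1, b)).2.2.2.2.2.1) v.2
  exact h1

lemma th2 {s : Conf d L} {x : Site L → XT d m M} (h : CA m M s x) (v : Site L) :
    (x v).2.1 = (th x).2 v.2 := by
  have h1 := const_zmod (fun a => (x (a, v.2)).2.1) (fun a => (h (a, v.2)).2.2.2.1) v.1
  exact h1

lemma th_valid {s : Conf d L} {x : Site L → XT d m M} (h : CA m M s x) : Valid (th x) := by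
  refine ⟨fun a => ?_, fun b => ?_⟩
  · have h1 := h (a, 0)
    exact ⟨h1.1, h1.2.2.1⟩
  · have h1 := h (0, b)
    exact ⟨h1.2.1, h1.2.2.2.2.1⟩

lemma th_FX {s : Conf d L} {x : Site L → XT d m M} (h : CA m M s x) : FX m M s (th x) := by
  intro v hv
  rw [← th1 h, ← th2 h] at hv ⊢
  exact ((h v).2.2.2.2.2.2.2.2.2 hv).2

/-- inside a sub-block the contents agree -/
lemma same {s : Conf d L} {x : Site L → XT d m M} (h : CA m M s x) (c : Site L) {k k' : ℕ}
    (hk : k < M) (hk' : k' < M) (hkk : k ≠ k')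
    (h1 : ∀ a : ℕ, a < m → ((x (c.1 + (a : ZMod L), c.2)).1.2 : ℕ) = m * k + a + 1)
    (h2 : ∀ b : ℕ, b < m → ((x (c.1, c.2 + (b : ZMod L))).2.1.2 : ℕ) = m * k' + b + 1)
    (a : ℕ) (ha : a < m) (b : ℕ) (hb : b < m) :
    (x (c.1 + (a : ZMod L), c.2 + (b : ZMod L))).2.2 = (x c).2.2 ∧
    ((x (c.1 + (a : ZMod L), c.2 + (b : ZMod L))).1.2 : ℕ) = m * k + a + 1 ∧
    ((x (c.1 + (a : ZMod L), c.2 + (b : ZMod L))).2.1.2 : ℕ) = m * k' + b + 1 := by
  have l1 : ∀ a : ℕ, a < m → ∀ w : ZMod L,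
      ((x (c.1 + (a : ZMod L), w)).1.2 : ℕ) = m * k + a + 1 := by
    intro a ha w
    rw [← h1 a ha, th1 h, th1 h]
  have l2 : ∀ b : ℕ, b < m → ∀ w : ZMod L,
      ((x (w, c.2 + (b : ZMod L))).2.1.2 : ℕ) = m * k' + b + 1 := by
    intro b hb w
    rw [← h2 b hb, th2 h, th2 h]
  refine ⟨?_, l1 a ha _, l2 b hb _⟩
  -- first along the row
  have hrow : ∀ a : ℕ, a < m → (x (c.1 + (a : ZMod L), c.2)).2.2 = (x c).2.2 := by
    intro a
    induction a with
    | zero =>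
      intro _
      simp
    | succ a ih =>
      intro ha
      rw [← ih (by omega)]
      have h3 := (h (c.1 + ((a + 1 : ℕ) : ZMod L), c.2)).2.2.2.2.2.2.1
      have e : c.1 + ((a + 1 : ℕ) : ZMod L) - 1 = c.1 + (a : ZMod L) := by push_cast; ring
      simp only at h3
      rw [e] at h3
      have e0 : c.2 = c.2 + ((0 : ℕ) : ZMod L) := by simp
      have l3 : ((x (c.1 + ((a + 1 : ℕ) : ZMod L), c.2)).2.1.2 : ℕ) = m * k' + 0 + 1 := by
        have := l2 0 (by omega) (c.1 + ((a + 1 : ℕ) : ZMod L))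
        rw [← e0] at this
        exact this
      rw [l1 (a + 1) ha, l3] at h3
      refine (h3 (blk_mk (b := 0) hk hk' hkk ha (by omega)) ?_).symm
      rw [mod_mk ha]
      omega
  have hcol : ∀ b : ℕ, b < m → (x (c.1 + (a : ZMod L), c.2 + (b : ZMod L))).2.2 =
      (x (c.1 + (a : ZMod L), c.2)).2.2 := by
    intro b
    induction b with
    | zero =>
      intro _
      simp
    | succ b ih =>
      intro hb
      rw [← ih (by omega)]
      have h3 := (h (c.1 + (a : ZMod L), c.2 + ((b + 1 : ℕ) : ZMod L))).2.2.2.2.2.2.2.1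
      have e : c.2 + ((b + 1 : ℕ) : ZMod L) - 1 = c.2 + (b : ZMod L) := by push_cast; ring
      simp only at h3
      rw [e, l1 a ha, l2 (b + 1) hb] at h3
      refine (h3 (blk_mk hk hk' hkk ha hb) ?_).symm
      rw [mod_mk hb]
      omega
  rw [hcol b hb, hrow a ha]

lemma Xt_th (hm : 0 < m) {s : Conf d L} {x : Site L → XT d m M} (h : CA m M s x) :
    Xt m M s (th x) = x := by
  funext v
  unfold Xt
  rw [← th1 h v, ← th2 h v]
  refine Prod.ext rfl (Prod.ext rfl ?_)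
  change Xc m M s (x v).1.2 (x v).2.1.2 v = (x v).2.2
  obtain ⟨i, hi⟩ : ∃ i : ℕ, i = ((x v).1.2 : ℕ) := ⟨_, rfl⟩
  obtain ⟨j, hj⟩ : ∃ j : ℕ, j = ((x v).2.1.2 : ℕ) := ⟨_, rfl⟩
  rw [← hi, ← hj]
  have hv := h v
  unfold Xc
  by_cases hb : Blk m M i j
  · rw [if_pos hb]
    obtain ⟨k, k', e1, e2, hk, hk', hkk⟩ := blk_form hm hb
    obtain ⟨p, hp⟩ : ∃ p, p = (i - 1) % m := ⟨_, rfl⟩
    obtain ⟨q, hq⟩ : ∃ q, q = (j - 1) % m := ⟨_, rfl⟩
    have hpm : p < m := by rw [hp]; exact Nat.mod_lt _ hm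
    have hqm : q < m := by rw [hq]; exact Nat.mod_lt _ hm
    rw [← hp] at e1
    rw [← hq] at e2
    rw [← hp, ← hq]
    obtain ⟨hV1, hV2⟩ := th_valid h
    have l1 : ∀ a : ℕ, a < m →
        ((x (v.1 - (p : ZMod L) + (a : ZMod L), v.2 - (q : ZMod L))).1.2 : ℕ) = m * k + a + 1 := by
      intro a ha
      rw [th1 h]
      refine lab_in hV1 v.1 ?_ hk ha
      rw [← th1 h v, ← hi]
      exact e1
    have l2 : ∀ b : ℕ, b < m →
        ((x (v.1 - (p : ZMod L), v.2 - (q : ZMod L) + (b : ZMod L))).2.1.2 : ℕ) =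
          m * k' + b + 1 := by
      intro b hb'
      rw [th2 h]
      refine lab_in hV2 v.2 ?_ hk' hb'
      rw [← th2 h v, ← hj]
      exact e2
    have hs := same h (v.1 - (p : ZMod L), v.2 - (q : ZMod L)) hk hk' hkk l1 l2
    have hxv : (x v).2.2 = (x (v.1 - (p : ZMod L), v.2 - (q : ZMod L))).2.2 := by
      have h5 := (hs p hpm q hqm).1
      rw [← h5]
      congr 3
      · simp
    rw [hxv]
    funext ab
    obtain ⟨h6, h7, h8⟩ := hs (ab.1 : ℕ) ab.1.2 (ab.2 : ℕ) ab.2.2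
    have h9 := (h (v.1 - (p : ZMod L) + ((ab.1 : ℕ) : ZMod L),
      v.2 - (q : ZMod L) + ((ab.2 : ℕ) : ZMod L))).2.2.2.2.2.2.2.2.1
    simp only at h7 h8 h9
    rw [h7, h8] at h9
    have h10 := h9 (blk_mk hk hk' hkk ab.1.2 ab.2.2) ab (mod_mk ab.1.2).symm
      (mod_mk ab.2.2).symm
    unfold Pool.Agent.Y738.PE.box
    simp only at h6 ⊢
    rw [h10, h6]
  · rw [if_neg hb]
    have h3 := hv.2.2.2.2.2.2.2.2.2
    rw [← hi, ← hj] at h3
    exact (h3 hb).1.symm

/-- **the contraction of the tensor is the superposition of all tilings** -/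
theorem collapse : StmCollapse := by
  intro d m M L _ hm hmL Φ s
  rw [peps_eq, tot_eq]
  symm
  refine Finset.sum_nbij' (Xt m M s) th ?_ ?_ ?_ ?_ ?_
  · intro θ hθ
    rw [mem_filter] at hθ ⊢
    exact ⟨mem_univ _, CA_Xt hm s θ hθ.2.1 hθ.2.2⟩
  · intro x hx
    rw [mem_filter] at hx ⊢
    exact ⟨mem_univ _, th_valid hx.2, th_FX hx.2⟩
  · intro θ _
    rfl
  · intro x hx
    rw [mem_filter] at hx
    exact Xt_th hm hx.2
  · intro θ hθ
    rw [mem_filter] at hθ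
    exact glob_amp Φ s θ hθ.2.2

end Pool.Agent.Y978.PE
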